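import Pool.Agent.W450.Det10

/-!
# Every admissible two-variable stable polynomial is `c det(A + i(x B₁ + y B₂))`

Full positive answer to Q1 of MP_ca7272_al: the converse holds for every `n`, even with `B₁ = 1`.
-/

set_option autoImplicit false

namespace Pool.Agent.Results.MP_ca7272_al.RealSkewPencil

open Matrix MvPolynomial Pool.Agent.W450

/-- Let `p` be a complex polynomial in two variables `x = X 0`, `y = X 1`, of total degree `n`,
which has no zeros with `Im x > 0` and `Im y > 0`, all of whose monomials have degree congruent to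
`n` modulo `2`, and whose homogeneous part of degree `n` is nonzero at `(1, 0)` and at `(0, 1)`.
Then `p = c det(A + i (x B₁ + y B₂))` with a real skew-symmetric `n × n` matrix `A`, real positive
definite `n × n` matrices `B₁`, `B₂` and a complex constant `c ≠ 0`. -/
theorem result (n : ℕ) (p : MvPolynomial (Fin 2) ℂ) (hdeg : p.totalDegree = n)
    (hstable : ∀ x y : ℂ, 0 < x.im → 0 < y.im → eval ![x, y] p ≠ 0)
    (hpar : ∀ m ∈ p.support, (m 0 + m 1) % 2 = n % 2)
    (h10 : eval ![1, 0] (homogeneousComponent n p) ≠ 0)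
    (h01 : eval ![0, 1] (homogeneousComponent n p) ≠ 0) :
    ∃ (A B₁ B₂ : Matrix (Fin n) (Fin n) ℝ) (c : ℂ),
      Aᵀ = -A ∧ B₁.PosDef ∧ B₂.PosDef ∧ c ≠ 0 ∧
      p = C c * (A.map (fun a : ℝ => (C (a : ℂ) : MvPolynomial (Fin 2) ℂ)) +
        (C Complex.I : MvPolynomial (Fin 2) ℂ) •
          ((X 0 : MvPolynomial (Fin 2) ℂ) • B₁.map (fun a : ℝ => (C (a : ℂ) : MvPolynomial (Fin 2) ℂ)) +
           (X 1 : MvPolynomial (Fin 2) ℂ) • B₂.map (fun a : ℝ => (C (a : ℂ) : MvPolynomial (Fin 2) ℂ)))).det := by
  classical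
  -- the two extreme coefficients
  have hev : ∀ v : Fin 2 → ℂ, eval v (homogeneousComponent n p) =
      ∑ m ∈ p.support with m.degree = n, p.coeff m * (v 0 ^ m 0 * v 1 ^ m 1) := by
    intro v
    rw [homogeneousComponent_apply, map_sum]
    refine Finset.sum_congr rfl fun m _ => ?_
    rw [eval_monomial, Finsupp.prod_fintype _ _ (by simp), Fin.prod_univ_two]
  have hdegm : ∀ m : Fin 2 →₀ ℕ, m.degree = m 0 + m 1 := by
    intro m
    rw [Finsupp.degree_eq_sum, Fin.sum_univ_two]
  have h1 : p.coeff (Finsupp.single 0 n) ≠ 0 := by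
    intro h0
    apply h10
    rw [hev]
    refine Finset.sum_eq_zero fun m hm => ?_
    rw [Finset.mem_filter, hdegm] at hm
    by_cases h2 : m 1 = 0
    · have h3 : m = Finsupp.single 0 n := by
        ext i
        fin_cases i
        · simp; omega
        · simpa using h2
      rw [h3, h0, zero_mul]
    · simp [h2]
  have h2 : p.coeff (Finsupp.single 1 n) ≠ 0 := by
    intro h0
    apply h01
    rw [hev]
    refine Finset.sum_eq_zero fun m hm => ?_
    rw [Finset.mem_filter, hdegm] at hm
    by_cases h2 : m 0 = 0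
    · have h3 : m = Finsupp.single 1 n := by
        ext i
        fin_cases i
        · simpa using h2
        · simp; omega
      rw [h3, h0, zero_mul]
    · simp [h2]
  set a := p.coeff (Finsupp.single 0 n) with ha
  have hfn : ∀ x y : ℂ, eval ![x, y] p = a * fn p.support (fun m => a⁻¹ * p.coeff m) x y := by
    intro x y
    rw [eval_eq', fn, Finset.mul_sum]
    refine Finset.sum_congr rfl fun m _ => ?_
    rw [Fin.prod_univ_two]
    simp only [cons_val_zero, cons_val_one]
    field_simp
  have hadm : Adm n p.support (fun m => a⁻¹ * p.coeff m) := by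
    refine ⟨?_, ?_, ?_, hpar, ?_⟩
    · intro m hm
      have h3 := le_totalDegree hm
      rw [hdeg, Finsupp.sum_fintype _ _ (by simp), Fin.sum_univ_two] at h3
      exact h3
    · rw [mem_support_iff]; exact h1
    · exact inv_mul_cancel₀ h1
    · intro x y hx hy h0
      apply hstable x y hx hy
      rw [hfn]
      unfold fn
      rw [h0, mul_zero]
  obtain ⟨A, B, hA, hB, hAB⟩ := hadm.exists_matrices
  have hpd : B.PosDef := hadm.posDef (by rw [mem_support_iff]; exact h2)
    (mul_ne_zero (inv_ne_zero h1) h2) hB hAB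
  refine ⟨A, 1, B, a * (-Complex.I) ^ n, hA, Matrix.PosDef.one, hpd,
    mul_ne_zero h1 (pow_ne_zero _ (neg_ne_zero.2 Complex.I_ne_zero)), ?_⟩
  apply MvPolynomial.funext
  intro v
  have hv : v = ![v 0, v 1] := by
    funext i; fin_cases i <;> rfl
  conv_lhs => rw [hv]
  rw [hfn, hAB, map_mul, eval_C, ← mul_assoc, RingHom.map_det]
  congr 2
  ext i j
  simp [Matrix.one_apply]
  split_ifs <;> simp

end Pool.Agent.Results.MP_ca7272_al.RealSkewPencil
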